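import Pool.Agent.P.MP_a84a61_al.Z.Par

set_option autoImplicit false
set_option linter.unusedSectionVars false
set_option linter.unusedSimpArgs false

namespace Pool.Agent.P.MP_a84a61_al.Z

open Finset Polynomial

/-- no finite basis of laws -/
def NFB (G : Type) [Group G] : Prop :=
  ¬ ∃ S : Finset (FreeGroup ℕ), ∀ w : FreeGroup ℕ,
    (∀ f : ℕ → G, FreeGroup.lift f w = 1) ↔
      w ∈ Subgroup.normalClosure
        {u : FreeGroup ℕ | ∃ φ : FreeGroup ℕ →* FreeGroup ℕ, ∃ s ∈ S, u = φ s}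

lemma NFB.equiv {G H : Type} [Group G] [Group H] (e : G ≃* H) (h : NFB G) : NFB H := by
  rintro ⟨S, hS⟩
  refine h ⟨S, fun w => ?_⟩
  rw [← hS w]
  exact ⟨fun h1 => Law.surj e.toMonoidHom e.surjective h1,
    fun h1 => Law.surj e.symm.toMonoidHom e.symm.surjective h1⟩

/-- a faithful action on a lattice gives a group of integer matrices -/
lemma exists_int {G L M : Type} [Group G] [CommRing L] [AddCommGroup M] [Module L M]
    [Module.Free ℤ M] [Module.Finite ℤ M] (ρ : G →* Module.End L M)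
    (hρ : Function.Injective ρ) :
    ∃ H : Subgroup (Matrix.GeneralLinearGroup (Fin (Module.finrank ℤ M)) ℤ),
      Nonempty (G ≃* H) := by
  let b := Module.finBasis ℤ M
  let ρ0 : G →* Module.End ℤ M :=
    ⟨⟨fun g => (ρ g).toAddMonoidHom.toIntLinearMap, by ext; simp⟩, fun g h => by ext; simp⟩
  let ρ1 : G →* Matrix (Fin (Module.finrank ℤ M)) (Fin (Module.finrank ℤ M)) ℤ :=
    (LinearMap.toMatrixAlgEquiv b).toMulEquiv.toMonoidHom.comp ρ0
  have h1 : Function.Injective ρ1 := by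
    intro x y hxy
    apply hρ
    have := (LinearMap.toMatrixAlgEquiv b).injective hxy
    exact LinearMap.ext fun v => DFunLike.congr_fun this v
  have h2 : Function.Injective ρ1.toHomUnits := by
    intro x y hxy
    apply h1
    exact congrArg Units.val hxy
  exact ⟨ρ1.toHomUnits.range, ⟨MonoidHom.ofInjective h2⟩⟩

lemma AA_sep (a : AA) (ha : a ≠ 0) : ∃ l : AA →+ ℤ, l a ≠ 0 := by
  by_contra h
  push Not at h
  apply ha
  refine Prod.ext (funext fun j => ?_) (funext fun j => ?_)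
  · exact h ((Pi.evalAddMonoidHom (fun _ : ℕ => ℤ) j).comp (AddMonoidHom.fst _ _))
  · exact h ((Pi.evalAddMonoidHom (fun _ : ℕ => ℤ) j).comp (AddMonoidHom.snd _ _))

instance : Zsqrtd.Nonsquare 3 := ⟨fun n h => by
  have h1 : n < 2 := by nlinarith
  interval_cases n <;> omega⟩

lemma unit_inf {O : Type} [CommRing O] [CharZero O] (u : O) (hu : u * u = 3) (ε : Oˣ)
    (hε : (ε : O) = 2 + u) (n : ℤ) (h : ε ^ n = 1) : n = 0 := by
  have hi := Zsqrtd.lift_injective (d := 3) (R := O) ⟨u, by rw [hu]; norm_num⟩ (fun n hn => by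
    have h1 : n < 2 := by nlinarith
    have h2 : -2 < n := by nlinarith
    interval_cases n <;> omega)
  have h1 : ε ^ n.natAbs = 1 := by
    rcases Int.natAbs_eq n with e | e
    · rw [e, zpow_natCast] at h; exact h
    · rw [e, zpow_neg, zpow_natCast, inv_eq_one] at h; exact h
  have h2 : (⟨2, 1⟩ : ℤ√((3 : ℕ) : ℤ)) ^ n.natAbs = 1 := by
    apply hi
    have := congrArg Units.val h1
    rw [Units.val_pow_eq_pow_val, hε] at this
    rw [map_pow, map_one]
    simpa using this
  by_contra hn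
  have h3 : (1 : ℤ√((3 : ℕ) : ℤ)) < ⟨2, 1⟩ := by decide
  exact (one_lt_pow₀ h3 (Int.natAbs_ne_zero.2 hn)).ne' h2

theorem main_of {O k : Type} [CommRing O] [IsDomain O] [CharZero O] [Module.Free ℤ O]
    [Module.Finite ℤ O] [Field k] [CharP k 2] [Finite k] (θ : kˣ) (hθ : ∀ s, s ∈ Subgroup.zpowers θ)
    (ho : orderOf θ = 3) (z : O) (hz : z ^ 4 - z ^ 2 + 1 = 0) (ρ : O →+* k) (hρ : ρ z = θ) :
    ∃ G : Subgroup (Matrix.GeneralLinearGroup (Fin (9 * Module.finrank ℤ O)) ℤ),
      Poly G ∧ NFB G := by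
  have h3 : ∀ s : kˣ, s ^ 3 = 1 := fun s => by
    obtain ⟨n, rfl⟩ := hθ s
    rw [← zpow_natCast, ← zpow_mul, mul_comm, zpow_mul, zpow_natCast, ← ho, pow_orderOf_eq_one,
      one_zpow]
  let ω : Oˣ := ⟨z ^ 4, z ^ 8, by linear_combination (z ^ 8 + z ^ 6 - z ^ 2 - 1) * hz,
    by linear_combination (z ^ 8 + z ^ 6 - z ^ 2 - 1) * hz⟩
  have hω : orderOf ω ∣ orderOf θ := by
    rw [ho, orderOf_dvd_iff_pow_eq_one]
    ext
    simp only [Units.val_pow_eq_pow_val, ω, Units.val_one]
    linear_combination (z ^ 8 + z ^ 6 - z ^ 2 - 1) * hz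
  let ν : kˣ →* Oˣ := monoidHomOfForallMemZpowers hθ hω
  have hν : ∀ s, ρ (ν s) = s := by
    have : (Units.map ρ.toMonoidHom).comp ν = MonoidHom.id _ := by
      rw [MonoidHom.eq_iff_eq_on_generator hθ]
      ext
      simp only [ν, MonoidHom.comp_apply, monoidHomOfForallMemZpowers_apply_gen, Units.coe_map,
        ω, MonoidHom.id_apply, RingHom.toMonoidHom_eq_coe, MonoidHom.coe_coe, map_pow, hρ]
      have := congrArg Units.val (h3 θ)
      rw [Units.val_pow_eq_pow_val, Units.val_one] at this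
      linear_combination (θ : k) * this
    exact fun s => congrArg Units.val (DFunLike.congr_fun this s)
  let ε : Oˣ := ⟨2 + (2 * z - z ^ 3), 2 - (2 * z - z ^ 3),
    by linear_combination (-z ^ 2 + 3) * hz, by linear_combination (-z ^ 2 + 3) * hz⟩
  have hε := unit_inf (2 * z - z ^ 3) (by linear_combination (z ^ 2 - 3) * hz) ε rfl
  let P : Par O ℤ kˣ :=
    { m := fun n => ((ε ^ n : Oˣ) : O)
      m0 := by simp
      madd := fun a b => by rw [zpow_add, Units.val_mul]
      n := (Units.coeHom O).comp ν }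
  have hf : ∀ a s, P.m a * P.n s = 1 → a = 0 ∧ s = 1 := by
    intro a s h
    have h1 : ε ^ a * ν s = 1 := Units.ext h
    have h2 : ε ^ (a * 3) = 1 := by
      have := congrArg (· ^ 3) h1
      simp only [mul_pow, ← map_pow, h3, map_one, mul_one, one_pow] at this
      rw [zpow_mul]
      exact_mod_cast this
    have h4 : a = 0 := by have := hε _ h2; omega
    refine ⟨h4, Units.ext ?_⟩
    rw [h4, zpow_zero, one_mul] at h1
    rw [← hν, h1]; simp
  obtain ⟨G, ⟨e⟩⟩ := exists_int (XE.rep (DP P)) (XE.rep_injective _ (DP_faithful P hf))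
  have hr : Module.finrank ℤ (O × VP O × (ZMod 2 → O)) = 9 * Module.finrank ℤ O := by
    simp only [Module.finrank_prod, Module.finrank_pi_fintype, sum_const, card_univ, ZMod.card,
      Fintype.card_prod, smul_eq_mul]
    ring
  rw [← hr]
  refine ⟨G, Poly.equiv e (Poly.xe _ ((Poly.dih ℤ).prod ((Poly.dih ℤ).prod (Poly.fin _)))),
    NFB.equiv e ?_⟩
  rintro ⟨S, hS⟩
  refine not_fb' θ (fun h => by rw [h, orderOf_one] at ho; omega) (fun m w hw => ?_)
    (fun m p q y x => law_P (by simp) P h3 p q y x) S hS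
  refine Law.toG P (fun a ha => ?_) ρ (fun y => ?_) hν hw
  · obtain ⟨l, hl⟩ := AA_sep a ha
    exact ⟨l, fun h => hl (hε _ (Units.ext h))⟩
  · by_cases hy : y = 0
    · exact ⟨0, by rw [hy, map_zero]⟩
    · exact ⟨ν (Units.mk0 y hy), hν _⟩

theorem main : ∃ G : Subgroup (Matrix.GeneralLinearGroup (Fin 36) ℤ), Poly G ∧ NFB G := by
  classical
  let k := GaloisField 2 2
  have hu : Nat.card kˣ = 3 := by
    rw [Nat.card_units, GaloisField.card 2 2 (by norm_num)]
    norm_num
  obtain ⟨θ, hθ⟩ := IsCyclic.exists_generator (α := kˣ)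
  have ho : orderOf θ = 3 := by rw [orderOf_eq_card_of_forall_mem_zpowers hθ, hu]
  have hc : cyclotomic 12 ℤ = X ^ 4 - X ^ 2 + 1 := by
    rw [show 12 = 6 * 2 from rfl, ← cyclotomic_expand_eq_cyclotomic Nat.prime_two (by norm_num),
      cyclotomic_six]
    simp [← pow_mul]
  have hm : (cyclotomic 12 ℤ).Monic := cyclotomic.monic _ _
  have hd : (cyclotomic 12 ℤ).natDegree = 4 := by rw [natDegree_cyclotomic]; decide
  let O := AdjoinRoot (cyclotomic 12 ℤ)
  have : IsDomain O := AdjoinRoot.isDomain_of_prime (cyclotomic.irreducible (by norm_num)).prime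
  have : CharZero O := charZero_of_injective_algebraMap (R := ℤ)
    (AdjoinRoot.of.injective_of_degree_ne_zero (by rw [degree_eq_natDegree hm.ne_zero, hd]; decide))
  have : Module.Free ℤ O := hm.free_adjoinRoot
  have : Module.Finite ℤ O := hm.finite_adjoinRoot
  have hr : Module.finrank ℤ O = 4 := by
    rw [(AdjoinRoot.powerBasis' hm).finrank, AdjoinRoot.powerBasis'_dim, hd]
  have h1 : (θ : k) ^ 3 = 1 := by
    rw [← Units.val_pow_eq_pow_val, ← ho, pow_orderOf_eq_one, Units.val_one]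
  have h2 : (θ : k) - 1 ≠ 0 := fun h => by
    have : θ = 1 := Units.ext (sub_eq_zero.1 h)
    rw [this, orderOf_one] at ho; omega
  have h3 : (θ : k) ^ 2 + θ + 1 = 0 :=
    mul_left_cancel₀ h2 (by linear_combination h1)
  have h4 : (2 : k) = 0 := CharTwo.two_eq_zero
  have := main_of θ hθ ho (AdjoinRoot.root (cyclotomic 12 ℤ)) (by
      have e : ∀ (R : Type) [CommRing R] (j : ℤ →+* R) (y : R),
          (cyclotomic 12 ℤ).eval₂ j y = y ^ 4 - y ^ 2 + 1 := fun R _ j y => by
        rw [hc]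
        simp only [eval₂_add, eval₂_sub, eval₂_X_pow, eval₂_one]
      rw [← e _ (AdjoinRoot.of _), AdjoinRoot.eval₂_root])
    (AdjoinRoot.lift (Int.castRingHom k) (θ : k) (by
      rw [hc]
      simp only [eval₂_add, eval₂_sub, eval₂_X_pow, eval₂_one]
      linear_combination (θ : k) * h1 + h3 - (θ : k) ^ 2 * h4))
    (AdjoinRoot.lift_root _)
  rwa [hr] at this

end Pool.Agent.P.MP_a84a61_al.Z
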