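import Pool.Agent.P.MP_a84a61_al.Z.XE

set_option autoImplicit false
set_option linter.unusedSectionVars false
set_option linter.unusedSimpArgs false

namespace Pool.Agent.P.MP_a84a61_al.Z

open Finset AddMonoidAlgebra

/-- a character of `A` and a character of `S` with values in `L` -/
structure Par (L A S : Type) [CommRing L] [AddCommGroup A] [CommGroup S] where
  m : A → L
  m0 : m 0 = 1
  madd : ∀ a b, m (a + b) = m a * m b
  n : S →* L

abbrev TP (A S : Type) := Dih A × Dih A × S
abbrev VP (L : Type) := (ZMod 2 → L) × (ZMod 2 × ZMod 2 → L)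

variable {L A S : Type} [CommRing L] [AddCommGroup A] [CommGroup S]

def a1 (P : Par L A S) : TP A S →* Module.End L (ZMod 2 → L) :=
  monoRep (fun g s => P.m (sgn s • g.1.a) * P.n g.2.2) (fun g s => s + g.1.e)
    (fun s => by simp [P.m0]) (fun s => by simp)
    (fun g h s => by
      simp only [Prod.fst_mul, Prod.snd_mul, Dih.mul_a, smul_add, P.madd, map_mul, sgn_add,
        mul_smul]
      ring) (fun g h s => by simp [add_assoc])

def a2 (P : Par L A S) : TP A S →* Module.End L (ZMod 2 × ZMod 2 → L) :=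
  monoRep (fun g s => P.m (sgn s.1 • g.1.a + sgn s.2 • g.2.1.a) * P.n g.2.2)
    (fun g s => (s.1 + g.1.e, s.2 + g.2.1.e))
    (fun s => by simp [P.m0]) (fun s => by simp)
    (fun g h s => by
      simp only [Prod.fst_mul, Prod.snd_mul, Dih.mul_a, smul_add, P.madd, map_mul, sgn_add,
        mul_smul]
      ring) (fun g h s => by simp [add_assoc])

def a3 (P : Par L A S) : TP A S →* Module.End L (ZMod 2 → L) :=
  monoRep (fun g _ => P.n g.2.2 ^ 2) (fun g s => s + g.1.e)
    (fun s => by simp) (fun s => by simp)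
    (fun g h s => by simp [mul_pow]) (fun g h s => by simp [add_assoc])

lemma Par.m_neg (P : Par L A S) (a : A) : P.m a * P.m (-a) = 1 := by
  rw [← P.madd, add_neg_cancel, P.m0]

/-- the data of the group -/
def DP (P : Par L A S) : XD L (TP A S) (VP L) (ZMod 2 → L) where
  actV := prodRep (a1 P) (a2 P)
  actC := a3 P
  β := LinearMap.mk₂ _ (fun v w s => v.1 s * w.1 (s + 1))
    (fun _ _ _ => by funext s; simp [add_mul]) (fun _ _ _ => by funext s; simp [mul_assoc])
    (fun _ _ _ => by funext s; simp [mul_add]) (fun _ _ _ => by funext s; simp; ring)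
  equiv g v w := by
    funext s
    simp only [a3, a1, monoRep, prodRep, MonoidHom.coe_mk, OneHom.coe_mk, LinearMap.coe_mk,
      AddHom.coe_mk, LinearMap.mk₂_apply, LinearMap.prodMap_apply]
    rw [sgn_succ, neg_smul, add_right_comm s 1]
    linear_combination (-(P.n g.2.2 ^ 2 * (v.1 (s + g.1.e) * w.1 (s + g.1.e + 1)))) *
      P.m_neg (sgn s • g.1.a)

lemma DP_V1 (P : Par L A S) (g : TP A S) (v : VP L) (s : ZMod 2) :
    ((DP P).actV g v).1 s = P.m (sgn s • g.1.a) * P.n g.2.2 * v.1 (s + g.1.e) := rfl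

lemma DP_V2 (P : Par L A S) (g : TP A S) (v : VP L) (s : ZMod 2 × ZMod 2) :
    ((DP P).actV g v).2 s = P.m (sgn s.1 • g.1.a + sgn s.2 • g.2.1.a) * P.n g.2.2 *
      v.2 (s.1 + g.1.e, s.2 + g.2.1.e) := rfl

lemma DP_C (P : Par L A S) (g : TP A S) (c : ZMod 2 → L) (s : ZMod 2) :
    (DP P).actC g c s = P.n g.2.2 ^ 2 * c (s + g.1.e) := rfl

lemma DP_β (P : Par L A S) (v w : VP L) (s : ZMod 2) :
    (DP P).β v w s = v.1 s * w.1 (s + 1) := rfl

lemma DP_faithful [Nontrivial L] (P : Par L A S)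
    (hP : ∀ a s, P.m a * P.n s = 1 → a = 0 ∧ s = 1) (g : TP A S) (h : (DP P).actV g = 1) :
    g = 1 := by
  have h1 : ∀ (v : VP L) s, P.m (sgn s • g.1.a) * P.n g.2.2 * v.1 (s + g.1.e) = v.1 s :=
    fun v s => by rw [← DP_V1, h]; rfl
  have h2 : ∀ (v : VP L) (s : ZMod 2 × ZMod 2),
      P.m (sgn s.1 • g.1.a + sgn s.2 • g.2.1.a) * P.n g.2.2 *
      v.2 (s.1 + g.1.e, s.2 + g.2.1.e) = v.2 s := fun v s => by rw [← DP_V2, h]; rfl
  have b1 := h1 (fun _ => 1, 0) 0
  have b2 := h2 (0, fun _ => 1) (0, 0)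
  simp only [sgn_zero, one_smul, mul_one] at b1 b2
  have b1 := hP _ _ b1
  have b2 := hP _ _ b2
  have b3 : g.2.1.a = 0 := by simpa [b1.1] using b2.1
  have b4 := h2 (0, fun t => if t = (0, 0) then 1 else 0) (0, 0)
  have b5 : g.1.e = 0 ∧ g.2.1.e = 0 := by
    by_contra hh
    simp only [zero_add, Prod.mk.injEq, if_neg hh, mul_zero, and_self, if_true] at b4
    exact zero_ne_one b4
  ext
  · exact b1.1
  · exact b5.1
  · exact b3
  · exact b5.2
  · exact b1.2

def q1 : TP A S →* Dih A := ⟨⟨fun g => g.1, rfl⟩, fun _ _ => rfl⟩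
def q2 : TP A S →* Dih A := ⟨⟨fun g => g.2.1, rfl⟩, fun _ _ => rfl⟩
def q3 : TP A S →* S := ⟨⟨fun g => g.2.2, rfl⟩, fun _ _ => rfl⟩

lemma r0_TP (p q : TP A S) : r0 p q = 1 := by
  refine Prod.ext ?_ (Prod.ext ?_ ?_)
  · exact (map_r0 q1 p q).trans (Dih.r0_eq _ _)
  · exact (map_r0 q2 p q).trans (Dih.r0_eq _ _)
  · exact (map_r0 q3 p q).trans (r0_comm _ _)

/-- the signed word is a law -/
theorem law_P {κ : Type} [Fintype κ] [DecidableEq κ] (hκ : Odd (Fintype.card κ))
    (P : Par L A S) (h3 : ∀ s : S, s ^ 3 = 1)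
    (p q z : XE (DP P)) (x : κ → XE (DP P)) : ws p q z x = 1 := by
  rw [ws_xe _ _ _ _ (r0_TP _ _)]
  generalize (r0 p q).v = v
  refine XE.ext rfl ?_ rfl
  funext s
  let Fn : A → L := fun γ => (P.m (sgn s • γ) - P.m (-(sgn s • γ))) * (v.1 s * v.1 (s + 1))
  have e1 : ∀ t : Finset κ × Bool,
      ((DP P).β ((DP P).actV (gg z.g (fun i => (x i).g) t) v) v -
      (DP P).β v ((DP P).actV (gg z.g (fun i => (x i).g) t) v)) s =
      Fn (gg z.g.1 (fun i => (x i).g.1) t).a := by
    intro t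
    have b1 : (gg z.g (fun i => (x i).g) t).1 = gg z.g.1 (fun i => (x i).g.1) t :=
      map_gg q1 z.g (fun i => (x i).g) t
    have b2 : (gg z.g (fun i => (x i).g) t).2.2 = 1 :=
      (map_gg q3 z.g (fun i => (x i).g) t).trans (gg_comm h3 _ _ _)
    simp only [Pi.sub_apply, DP_β, DP_V1, b1, b2, Dih.gg_e, add_zero, map_one, sgn_succ,
      neg_smul, Fn]
    ring
  simp only [Finset.sum_apply, Pi.smul_apply, e1]
  exact sum_sg hκ Fn (fun a => by simp only [Fn, smul_neg, neg_neg]; ring) _ _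

section map
variable {L' A' : Type} [CommRing L'] [AddCommGroup A']

/-- functoriality -/
def mapP (P : Par L A S) (P' : Par L' A' S) (φ : L →+* L') (l : A →+ A')
    (hm : ∀ a, φ (P.m a) = P'.m (l a)) (hn : ∀ s, φ (P.n s) = P'.n s) :
    XE (DP P) →* XE (DP P') where
  toFun x := ⟨(fun s => φ (x.v.1 s), fun s => φ (x.v.2 s)), fun s => φ (x.c s),
    (Dih.map l x.g.1, Dih.map l x.g.2.1, x.g.2.2)⟩
  map_one' := by
    refine XE.ext (Prod.ext ?_ ?_) ?_ (Prod.ext ?_ (Prod.ext ?_ rfl))
    · funext s; simp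
    · funext s; simp
    · funext s; simp
    · exact map_one (Dih.map l)
    · exact map_one (Dih.map l)
  map_mul' x y := by
    refine XE.ext (Prod.ext ?_ ?_) ?_ (Prod.ext ?_ (Prod.ext ?_ rfl))
    · funext s
      simp only [XE.mul_v, Prod.fst_add, Pi.add_apply, DP_V1, map_add, map_mul, hm, hn,
        Dih.map_a, Dih.map_e, map_zsmul]
    · funext s
      simp only [XE.mul_v, Prod.snd_add, Pi.add_apply, DP_V2, map_add, map_mul, hm, hn,
        Dih.map_a, Dih.map_e, map_zsmul]
    · funext s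
      simp only [XE.mul_c, Pi.add_apply, DP_V1, DP_C, DP_β, map_add, map_mul, map_pow, hm, hn,
        Dih.map_a, Dih.map_e, map_zsmul]
    · exact map_mul (Dih.map l) _ _
    · exact map_mul (Dih.map l) _ _

lemma mapP_surj (P : Par L A S) (P' : Par L' A S) (φ : L →+* L')
    (hm : ∀ a, φ (P.m a) = P'.m (AddMonoidHom.id A a)) (hn : ∀ s, φ (P.n s) = P'.n s)
    (hφ : Function.Surjective φ) : Function.Surjective (mapP P P' φ _ hm hn) := by
  choose σ hσ using hφ
  intro y
  refine ⟨⟨(fun s => σ (y.v.1 s), fun s => σ (y.v.2 s)), fun s => σ (y.c s), y.g⟩, ?_⟩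
  refine XE.ext (Prod.ext ?_ ?_) ?_ rfl
  · funext s; exact hσ _
  · funext s; exact hσ _
  · funext s; exact hσ _

end map

/-- the laws of a group -/
def Law (G : Type) [Group G] {ι : Type} (w : FreeGroup ι) : Prop :=
  ∀ f : ι → G, FreeGroup.lift f w = 1

lemma map_lift {G G' ι : Type} [Group G] [Group G'] (φ : G →* G') (f : ι → G) (w : FreeGroup ι) :
    φ (FreeGroup.lift f w) = FreeGroup.lift (fun j => φ (f j)) w := by
  have : φ.comp (FreeGroup.lift f) = FreeGroup.lift (fun j => φ (f j)) := by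
    ext j : 1; simp
  exact DFunLike.congr_fun this w

lemma Law.surj {G G' ι : Type} [Group G] [Group G'] (φ : G →* G') (hφ : Function.Surjective φ)
    {w : FreeGroup ι} (h : Law G w) : Law G' w := by
  choose σ hσ using hφ
  intro f
  have := map_lift φ (fun j => σ (f j)) w
  simp only [hσ] at this
  rw [← this, h, map_one]

/-- the generic parameters over the group ring -/
noncomputable def gen (A : Type) [AddCommGroup A] (ν : S →* L) :
    Par (AddMonoidAlgebra L A) A S where
  m a := single a 1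
  m0 := rfl
  madd a b := by rw [single_mul_single, mul_one]
  n := ⟨⟨fun s => single 0 (ν s), by rw [map_one]; rfl⟩,
    fun s t => by simp only [single_mul_single, map_mul, add_zero]⟩

section sep
variable {B : Type} [AddCommGroup B]

/-- evaluation of the group ring along a character -/
noncomputable def ev (P : Par L B S) (l : A →+ B) : AddMonoidAlgebra L A →+* L :=
  (AddMonoidAlgebra.lift L L A
    ⟨⟨fun a => P.m (l a.toAdd), by simp [P.m0]⟩, fun a b => by simp [P.madd]⟩).toRingHom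

lemma ev_single (P : Par L B S) (l : A →+ B) (a : A) (c : L) :
    ev P l (single a c) = c * P.m (l a) := by
  simp [ev]

lemma ev_sep [IsDomain L] (P : Par L B S) (hs : ∀ a : A, a ≠ 0 → ∃ l : A →+ B, P.m (l a) ≠ 1)
    (r : AddMonoidAlgebra L A) (h : ∀ l : A →+ B, ev P l r = 0) : r = 0 := by
  let χ : A → (Multiplicative (A →+ B) →* L) := fun a =>
    ⟨⟨fun l => P.m (l.toAdd a), by simp [P.m0]⟩, fun l l' => by simp [P.madd]⟩
  have hχ : Function.Injective χ := by
    intro a b hab
    by_contra hne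
    obtain ⟨l, hl⟩ := hs (a - b) (sub_ne_zero.2 hne)
    have h1 : P.m (l a) = P.m (l b) := DFunLike.congr_fun hab (Multiplicative.ofAdd l)
    apply hl
    rw [map_sub, sub_eq_add_neg, P.madd, h1, P.m_neg]
  have hli := (linearIndependent_monoidHom (Multiplicative (A →+ B)) L).comp χ hχ
  rw [linearIndependent_iff] at hli
  have := hli r.coeff (by
    funext l
    have h1 := h l.toAdd
    simp only [ev, AlgHom.toRingHom_eq_coe, RingHom.coe_coe, AddMonoidAlgebra.lift_apply] at h1
    rw [Finsupp.linearCombination_apply, Finsupp.sum_apply']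
    exact h1)
  ext a
  simp [this]

lemma Law.generic [IsDomain L] (P : Par L B S) (hs : ∀ a : A, a ≠ 0 → ∃ l : A →+ B, P.m (l a) ≠ 1)
    {ι : Type} {w : FreeGroup ι} (h : Law (XE (DP P)) w) : Law (XE (DP (gen A P.n))) w := by
  intro f
  have key : ∀ l : A →+ B, mapP (gen A P.n) P (ev P l) l
      (fun a => by simp [gen, ev_single]) (fun s => by simp [gen, ev_single, P.m0])
      (FreeGroup.lift f w) = 1 := fun l => by rw [map_lift, h]
  generalize FreeGroup.lift f w = y at key
  have k2 : ∀ d : Dih A, (∀ l : A →+ B, Dih.map l d = 1) → d = 1 := by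
    intro d hd
    ext
    · by_contra hne
      obtain ⟨l, hl⟩ := hs _ hne
      have : l d.a = 0 := congrArg Dih.a (hd l)
      exact hl (by rw [this, P.m0])
    · exact (congrArg Dih.e (hd 0) :)
  refine XE.ext (Prod.ext ?_ ?_) ?_ (Prod.ext ?_ (Prod.ext ?_ ?_))
  · funext s
    exact ev_sep P hs _ fun l => congrArg (fun t => t.v.1 s) (key l)
  · funext s
    exact ev_sep P hs _ fun l => congrArg (fun t => t.v.2 s) (key l)
  · funext s
    exact ev_sep P hs _ fun l => congrArg (fun t => t.c s) (key l)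
  · exact k2 _ fun l => congrArg (fun t => t.g.1) (key l)
  · exact k2 _ fun l => congrArg (fun t => t.g.2.1) (key l)
  · exact congrArg (fun t => t.g.2.2) (key 0)

end sep

section two
variable {k : Type} [Field k] [CharP k 2]

/-- comparison with the group in characteristic two -/
noncomputable def toExt (k A : Type) [Field k] [CharP k 2] [AddCommGroup A] :
    XE (DP (gen A (Units.coeHom k))) →* Ext (DG k A) where
  toFun x := ⟨x.v, x.c, x.g⟩
  map_one' := rfl
  map_mul' x y := by
    have hV : ∀ g v, (DP (gen A (Units.coeHom k))).actV g v = (DG k A).actV g v := by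
      intro g v
      refine Prod.ext ?_ ?_
      · funext s
        rw [DP_V1, DG_V1]
        simp [gen, single_mul_single]
      · funext s
        rw [DP_V2, DG_V2]
        simp [gen, single_mul_single]
    have hC : ∀ g c, (DP (gen A (Units.coeHom k))).actC g c = (DG k A).actC g c := by
      intro g c
      funext s
      rw [DP_C]
      change _ = single 0 ((g.2.2 : k) ^ 2) * c (s + g.1.e)
      simp [gen, pow_two, single_mul_single]
    refine Ext.ext ?_ ?_ rfl
    · simp only [XE.mul_v, Ext.mul_v, hV]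
    · simp only [XE.mul_c, Ext.mul_c, hV, hC]
      rfl

lemma Law.toG [IsDomain L] {B : Type} [AddCommGroup B] (P : Par L B kˣ)
    (hs : ∀ a : A, a ≠ 0 → ∃ l : A →+ B, P.m (l a) ≠ 1) (ρ : L →+* k)
    (hρ : Function.Surjective ρ) (hn : ∀ s, ρ (P.n s) = s)
    {ι : Type} {w : FreeGroup ι} (h : Law (XE (DP P)) w) : Law (Ext (DG k A)) w := by
  refine Law.surj (toExt k A) (fun y => ⟨⟨y.v, y.c, y.g⟩, rfl⟩) ?_
  refine Law.surj _ (mapP_surj (gen A P.n) (gen A (Units.coeHom k)) (mapRingHom A ρ)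
    (fun a => by simp [gen]) (fun s => by simp [gen, hn]) ?_) (h.generic P hs)
  exact AddMonoidAlgebra.map_surjective _ hρ

/-- the transfer of the main theorem -/
theorem not_fb' {G : Type} [Group G] (ζ : kˣ) (hζ : ζ ≠ 1)
    (h1 : ∀ (m : ℕ) (w : FreeGroup (Fin m)), Law G w → Law (Ext (DG k AA)) w)
    (h2 : ∀ (m : ℕ) (p q z : G) (x : Fin (2 * m + 1) → G), ws p q z x = 1)
    (F : Finset (FreeGroup ℕ)) :
    ¬ ∀ w : FreeGroup ℕ, (∀ f : ℕ → G, FreeGroup.lift f w = 1) ↔
      w ∈ Subgroup.normalClosure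
        {u : FreeGroup ℕ | ∃ φ : FreeGroup ℕ →* FreeGroup ℕ, ∃ s ∈ F, u = φ s} := by
  intro hS
  let c2 : ZMod 2 →+* k := ZMod.castHom (dvd_refl 2) k
  choose nn hnn using exists_fin
  let m := F.sup nn
  let i1 : Fin (2 * m + 1) := 0
  let θ : ℕ → Ext (DT c2 i1) := fun n => match n with
    | 0 => ⟨Finsupp.single 1 1, 0, (1, ζ)⟩
    | 1 => ⟨0, 0, (1, ζ)⟩
    | 2 => ⟨0, 0, (FreeGroup.of none, 1)⟩
    | n + 3 => if h : n < 2 * m + 1 then ⟨0, 0, (FreeGroup.of (some ⟨n, h⟩), 1)⟩ else 1
  let W : FreeGroup ℕ := ws (FreeGroup.of 0) (FreeGroup.of 1) (FreeGroup.of 2)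
    (fun i : Fin (2 * m + 1) => FreeGroup.of (i.val + 3))
  have hW := (hS W).1 fun f => by
    rw [map_ws]; exact h2 m _ _ _ _
  have hle : Subgroup.normalClosure
      {u : FreeGroup ℕ | ∃ φ : FreeGroup ℕ →* FreeGroup ℕ, ∃ s ∈ F, u = φ s} ≤
      (MM c2 i1).comap (FreeGroup.lift θ) := by
    apply Subgroup.normalClosure_le_normal
    rintro _ ⟨φ, s, hs, rfl⟩
    have hlaw := (hS s).2 (Subgroup.subset_normalClosure ⟨MonoidHom.id _, s, hs, rfl⟩)
    obtain ⟨w, rfl⟩ := hnn s m (Finset.le_sup hs)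
    obtain ⟨X, hX⟩ := exists_pos w
    have H : Setup k AA ((AddMonoidHom.inl _ _).comp (emb m)) ((AddMonoidHom.inr _ _).comp (emb m))
        X w := by
      refine ⟨fun x y x' y' h => ?_, hX, h1 m w fun f => ?_⟩
      · simp only [AddMonoidHom.comp_apply, AddMonoidHom.inl_apply, AddMonoidHom.inr_apply,
          Prod.mk_add_mk, add_zero, zero_add, Prod.mk.injEq] at h
        exact ⟨emb_inj m h.1, emb_inj m h.2⟩
      · have := hlaw fun n => if h : n < m then f ⟨n, h⟩ else 1
        rw [lift_map] at this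
        simpa using this
    have := H.mem c2 i1 (by simp; omega) fun j => FreeGroup.lift θ (φ (FreeGroup.of j.val))
    change FreeGroup.lift θ (φ (FreeGroup.map Fin.val w)) ∈ MM c2 i1
    have e : (FreeGroup.lift θ).comp (φ.comp (FreeGroup.map Fin.val)) =
        FreeGroup.lift fun j : Fin m => FreeGroup.lift θ (φ (FreeGroup.of j.val)) := by
      ext j : 1; simp
    rw [← e] at this
    exact this
  have h3 : FreeGroup.lift θ W ∈ MM c2 i1 := hle hW
  apply not_mem c2 i1 ζ hζ
  rw [map_ws] at h3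
  rw [← ws_eq_ww _ _ _ _ (by simp [r0, cm])]
  simpa only [FreeGroup.lift_apply_of, θ, Fin.is_lt, dif_pos] using h3

end two

end Pool.Agent.P.MP_a84a61_al.Z
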