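import Pool.Agent.P.MP_a84a61_al.Main

set_option autoImplicit false
set_option linter.unusedSectionVars false
set_option linter.unusedSimpArgs false

namespace Pool.Agent.P.MP_a84a61_al.Z

open Finset

/-- data for a Heisenberg type extension with an acting group, any characteristic -/
structure XD (R T V C : Type) [CommRing R] [Group T] [AddCommGroup V] [Module R V]
    [AddCommGroup C] [Module R C] where
  actV : T →* Module.End R V
  actC : T →* Module.End R C
  β : V →ₗ[R] V →ₗ[R] C
  equiv : ∀ g v w, actC g (β v w) = β (actV g v) (actV g w)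

section
variable {R T V C : Type} [CommRing R] [Group T] [AddCommGroup V] [Module R V]
    [AddCommGroup C] [Module R C]

/-- the extension group -/
@[ext] structure XE (D : XD R T V C) where
  v : V
  c : C
  g : T

namespace XE
variable {D : XD R T V C}

instance : Mul (XE D) :=
  ⟨fun x y => ⟨x.v + D.actV x.g y.v, x.c + D.actC x.g y.c + D.β x.v (D.actV x.g y.v), x.g * y.g⟩⟩
instance : One (XE D) := ⟨⟨0, 0, 1⟩⟩
instance : Inv (XE D) :=
  ⟨fun x => ⟨-D.actV x.g⁻¹ x.v, D.actC x.g⁻¹ (D.β x.v x.v - x.c), x.g⁻¹⟩⟩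

@[simp] lemma mul_v (x y : XE D) : (x * y).v = x.v + D.actV x.g y.v := rfl
@[simp] lemma mul_c (x y : XE D) :
    (x * y).c = x.c + D.actC x.g y.c + D.β x.v (D.actV x.g y.v) := rfl
@[simp] lemma mul_g (x y : XE D) : (x * y).g = x.g * y.g := rfl
@[simp] lemma one_v : (1 : XE D).v = 0 := rfl
@[simp] lemma one_c : (1 : XE D).c = 0 := rfl
@[simp] lemma one_g : (1 : XE D).g = 1 := rfl
@[simp] lemma inv_v (x : XE D) : (x⁻¹).v = -D.actV x.g⁻¹ x.v := rfl
@[simp] lemma inv_c (x : XE D) : (x⁻¹).c = D.actC x.g⁻¹ (D.β x.v x.v - x.c) := rfl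
@[simp] lemma inv_g (x : XE D) : (x⁻¹).g = x.g⁻¹ := rfl

lemma actV_mul (D : XD R T V C) (g h : T) (v : V) :
    D.actV (g * h) v = D.actV g (D.actV h v) := by rw [map_mul]; rfl
lemma actC_mul (D : XD R T V C) (g h : T) (v : C) :
    D.actC (g * h) v = D.actC g (D.actC h v) := by rw [map_mul]; rfl
lemma actV_one (D : XD R T V C) (v : V) : D.actV 1 v = v := by rw [map_one]; rfl
lemma actC_one (D : XD R T V C) (v : C) : D.actC 1 v = v := by rw [map_one]; rfl

instance : Group (XE D) := Group.ofLeftAxioms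
  (fun x y z => by
    ext
    · simp [actV_mul, add_assoc]
    · simp only [mul_c, mul_v, mul_g, actV_mul, actC_mul, map_add, LinearMap.add_apply, D.equiv]
      abel
    · simp [mul_assoc])
  (fun x => by ext <;> simp)
  (fun x => by
    ext
    · simp
    · simp only [mul_c, inv_c, inv_g, inv_v, map_sub, D.equiv, one_c, map_neg,
        LinearMap.neg_apply]
      abel
    · simp)

/-- projection to the acting group -/
def top (D : XD R T V C) : XE D →* T where
  toFun x := x.g
  map_one' := rfl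
  map_mul' _ _ := rfl

lemma conj_v (t x : XE D) (hx : x.g = 1) : (t * x * t⁻¹).v = D.actV t.g x.v := by
  simp only [mul_v, mul_g, inv_v, hx, mul_one, map_neg, ← actV_mul, mul_inv_cancel, actV_one]
  abel

lemma comm_eq (x y : XE D) (hx : x.g = 1) (hy : y.g = 1) :
    x * y * x⁻¹ * y⁻¹ = ⟨0, D.β x.v y.v - D.β y.v x.v, 1⟩ := by
  ext
  · simp only [mul_v, mul_g, inv_v, inv_g, hx, hy, mul_one, inv_one, actV_one]
    abel
  · simp only [mul_c, mul_v, mul_g, inv_v, inv_c, inv_g, hx, hy, mul_one, inv_one, actV_one,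
      actC_one, map_add, map_neg, LinearMap.add_apply, LinearMap.neg_apply]
    abel
  · simp [hx, hy]

lemma list_prod (l : List (XE D)) (h : ∀ x ∈ l, x.g = 1) :
    l.prod.g = 1 ∧ l.prod.v = (l.map fun x => x.v).sum := by
  induction l with
  | nil => simp
  | cons a l ih =>
    have ha := h a (by simp)
    obtain ⟨h1, h2⟩ := ih (fun x hx => h x (by simp [hx]))
    simp [ha, h1, h2]

/-- the faithful linear representation -/
def rep (D : XD R T V C) : XE D →* Module.End R (R × V × C) where
  toFun x :=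
    { toFun := fun y => (y.1, y.1 • x.v + D.actV x.g y.2.1,
        y.1 • x.c + D.β x.v (D.actV x.g y.2.1) + D.actC x.g y.2.2)
      map_add' := fun y z => by
        ext
        · simp
        · simp only [Prod.fst_add, Prod.snd_add, add_smul, map_add]; abel
        · simp only [Prod.fst_add, Prod.snd_add, add_smul, map_add]; abel
      map_smul' := fun r y => by
        ext
        · simp
        · simp [mul_smul]
        · simp [mul_smul] }
  map_one' := by
    apply LinearMap.ext; intro y
    ext <;> simp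
  map_mul' x x' := by
    apply LinearMap.ext; intro y
    ext
    · simp
    · simp only [mul_v, mul_g, actV_mul, LinearMap.coe_mk, AddHom.coe_mk, Module.End.mul_apply,
        map_add, map_smul, smul_add]
      abel
    · simp only [mul_v, mul_c, mul_g, actV_mul, actC_mul, LinearMap.coe_mk, AddHom.coe_mk,
        Module.End.mul_apply, map_add, map_smul, smul_add, LinearMap.add_apply, D.equiv]
      abel

lemma rep_injective (D : XD R T V C) (h : ∀ g, D.actV g = 1 → g = 1) :
    Function.Injective (rep D) := by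
  rw [injective_iff_map_eq_one]
  intro x hx
  have h1 := DFunLike.congr_fun hx (1, 0, 0)
  have hv : x.v = 0 := by simpa [rep] using congrArg (fun y => y.2.1) h1
  have hc : x.c = 0 := by simpa [rep] using congrArg (fun y => y.2.2) h1
  have hg : x.g = 1 := by
    apply h
    apply LinearMap.ext; intro v
    simpa [rep] using congrArg (fun y => y.2.1) (DFunLike.congr_fun hx (0, v, 0))
  ext <;> simp [hv, hc, hg]

end XE
end

/-! polycyclic groups -/

/-- soluble with all subgroups finitely generated -/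
def Poly (G : Type) [Group G] : Prop := Group.IsSolvable G ∧ ∀ H : Subgroup G, H.FG

lemma Poly.ext {K G Q : Type} [Group K] [Group G] [Group Q] (j : K →* G) (f : G →* Q)
    (h : f.ker ≤ j.range) (hK : Poly K) (hQ : Poly Q) : Poly G := by
  classical
  obtain ⟨s1, g1⟩ := hK
  obtain ⟨s2, g2⟩ := hQ
  refine ⟨Group.isSolvable_of_ker_le_range j f h, fun H => ?_⟩
  obtain ⟨F, hF⟩ := g2 (H.map f)
  obtain ⟨E, hE⟩ := g1 (H.comap j)
  have hch : ∀ y ∈ F, ∃ x ∈ H, f x = y := fun y hy => by
    have : y ∈ H.map f := hF ▸ Subgroup.subset_closure hy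
    exact this
  choose! σ hσ using hch
  refine ⟨F.image σ ∪ E.image j, le_antisymm ?_ fun x hx => ?_⟩
  · rw [Subgroup.closure_le]
    intro x hx
    simp only [coe_union, coe_image, Set.mem_union, Set.mem_image, mem_coe] at hx
    rcases hx with ⟨y, hy, rfl⟩ | ⟨y, hy, rfl⟩
    · exact (hσ y hy).1
    · have : y ∈ H.comap j := hE ▸ Subgroup.subset_closure hy
      exact this
  · set M := Subgroup.closure (((F.image σ ∪ E.image j : Finset G)) : Set G) with hM
    have h1 : H.map f ≤ (M ⊓ H).map f := by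
      rw [← hF, Subgroup.closure_le]
      intro y hy
      refine ⟨σ y, ⟨Subgroup.subset_closure ?_, (hσ y hy).1⟩, (hσ y hy).2⟩
      simp only [coe_union, coe_image]
      exact Or.inl ⟨y, hy, rfl⟩
    obtain ⟨x', ⟨hx1, hx2⟩, hx3⟩ := h1 ⟨x, hx, rfl⟩
    obtain ⟨z, hz⟩ := h (show x'⁻¹ * x ∈ f.ker by simp [MonoidHom.mem_ker, hx3])
    have h2 : H.comap j ≤ M.comap j := by
      rw [← hE, Subgroup.closure_le]
      intro y hy
      refine Subgroup.subset_closure ?_
      simp only [coe_union, coe_image]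
      exact Or.inr ⟨y, hy, rfl⟩
    have h3 : j z ∈ M := h2 (show j z ∈ H by rw [hz]; exact H.mul_mem (H.inv_mem hx2) hx)
    have := M.mul_mem hx1 h3
    rwa [hz, mul_inv_cancel_left] at this

lemma Poly.mult (M : Type) [AddCommGroup M] [Module.Finite ℤ M] : Poly (Multiplicative M) := by
  refine ⟨inferInstance, fun H => ?_⟩
  have h1 : (AddSubgroup.toIntSubmodule (Subgroup.toAddSubgroup' H)).FG := IsNoetherian.noetherian _
  rw [Submodule.fg_iff_addSubgroup_fg, AddSubgroup.fg_iff_mul_fg] at h1
  exact h1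

lemma Poly.fin (G : Type) [CommGroup G] [Finite G] : Poly G :=
  ⟨inferInstance, fun H => (Group.fg_iff_subgroup_fg H).1 inferInstance⟩

lemma Poly.prod {G Q : Type} [Group G] [Group Q] (hG : Poly G) (hQ : Poly Q) : Poly (G × Q) :=
  Poly.ext (MonoidHom.inl G Q) (MonoidHom.snd G Q) (by
    rintro ⟨a, b⟩ h
    have : b = 1 := h
    exact ⟨a, by simp [this]⟩) hG hQ

lemma Poly.equiv {G Q : Type} [Group G] [Group Q] (e : G ≃* Q) (hG : Poly G) : Poly Q :=
  Poly.ext e.toMonoidHom (1 : Q →* PUnit) (fun x _ => ⟨e.symm x, by simp⟩) hG (Poly.fin _)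

lemma Poly.dih (A : Type) [AddCommGroup A] [Module.Finite ℤ A] : Poly (Dih A) :=
  Poly.ext (K := Multiplicative A) (Q := Multiplicative (ZMod 2))
    ⟨⟨fun a => ⟨a.toAdd, 0⟩, rfl⟩, fun a b => by ext <;> simp⟩
    ⟨⟨fun x => Multiplicative.ofAdd x.e, rfl⟩, fun _ _ => rfl⟩
    (fun x h => ⟨Multiplicative.ofAdd x.a, by
      have : x.e = 0 := h
      ext <;> simp [this]⟩) (Poly.mult _) (Poly.fin _)

lemma Poly.xe {R T V C : Type} [CommRing R] [Group T] [AddCommGroup V] [Module R V]
    [AddCommGroup C] [Module R C] (D : XD R T V C) [Module.Finite ℤ V] [Module.Finite ℤ C]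
    (hT : Poly T) : Poly (XE D) := by
  refine Poly.ext (XE.top D).ker.subtype (XE.top D) (by simp) ?_ hT
  refine Poly.ext (K := Multiplicative C) (Q := Multiplicative V)
    ⟨⟨fun c => ⟨⟨0, c.toAdd, 1⟩, rfl⟩, rfl⟩, fun a b => ?_⟩
    ⟨⟨fun x => Multiplicative.ofAdd x.1.v, rfl⟩, fun x y => ?_⟩ (fun x h => ?_)
    (Poly.mult _) (Poly.mult _)
  · apply Subtype.ext
    ext <;> simp
  · have : x.1.g = 1 := x.2
    simp [this, ofAdd_add]
  · have h1 : x.1.g = 1 := x.2
    have h2 : x.1.v = 0 := h
    exact ⟨Multiplicative.ofAdd x.1.c, Subtype.ext (by ext <;> simp [h1, h2])⟩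

/-! the signed law -/

variable {κ : Type} [Fintype κ] [DecidableEq κ]

/-- parity of an index -/
def od (t : Finset κ × Bool) : Prop := Odd (t.1.card + if t.2 then 1 else 0)

instance : DecidablePred (od (κ := κ)) := fun t => by unfold od; infer_instance

section words
variable {H H' : Type} [Group H] [Group H']

noncomputable def fs (p q z : H) (x : κ → H) (t : Finset κ × Bool) : H :=
  if od t then (gg z x t * r0 p q * (gg z x t)⁻¹)⁻¹ else gg z x t * r0 p q * (gg z x t)⁻¹

noncomputable def rs (p q z : H) (x : κ → H) : H :=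
  ((univ : Finset (Finset κ × Bool)).toList.map (fs p q z x)).prod

/-- the signed law -/
noncomputable def ws (p q z : H) (x : κ → H) : H := cm (rs p q z x) (r0 p q)

lemma map_ws (φ : H →* H') (p q z : H) (x : κ → H) :
    φ (ws p q z x) = ws (φ p) (φ q) (φ z) (fun i => φ (x i)) := by
  simp only [ws, map_cm, map_r0, rs, map_list_prod, List.map_map]
  congr 3
  funext t
  simp only [Function.comp_apply, fs, apply_ite φ, map_inv, map_mul, map_gg, map_r0]

end words

section ext
variable {R T V C : Type} [CommRing R] [Group T] [AddCommGroup V] [Module R V]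
    [AddCommGroup C] [Module R C]

lemma ws_eq_ww {D : ExtData R T V C} (p q z : Ext D) (x : κ → Ext D) (h : r0 p.g q.g = 1) :
    ws p q z x = ww p q z x := by
  have h0 : (r0 p q).g = 1 := by rw [← h]; exact map_r0 (Ext.top D) p q
  have k1 : ∀ t, (gg z x t * r0 p q * (gg z x t)⁻¹).g = 1 := fun t => by simp [h0]
  obtain ⟨h1, h2⟩ := Ext.list_prod ((univ : Finset (Finset κ × Bool)).toList.map
    fun t => gg z x t * r0 p q * (gg z x t)⁻¹) (by
      intro y hy
      obtain ⟨t, _, rfl⟩ := List.mem_map.1 hy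
      exact k1 t)
  obtain ⟨h3, h4⟩ := Ext.list_prod ((univ : Finset (Finset κ × Bool)).toList.map (fs p q z x)) (by
      intro y hy
      obtain ⟨t, _, rfl⟩ := List.mem_map.1 hy
      unfold fs
      split_ifs
      · rw [Ext.inv_g, k1, inv_one]
      · exact k1 t)
  have h5 : (rs p q z x).v = (ru p q z x).v := by
    rw [rs, ru, h2, h4, List.map_map, List.map_map]
    congr 2
    funext t
    simp only [Function.comp_apply, fs]
    split_ifs
    · rw [Ext.inv_v, k1, inv_one, Ext.actV_one]
    · rfl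
  rw [ws, ww, cm, cm, Ext.comm_eq (rs p q z x) _ h3 h0, Ext.comm_eq (ru p q z x) _ h1 h0, h5]

/-- the sign of an index -/
def sg (t : Finset κ × Bool) : ℤ := if od t then -1 else 1

lemma sg_eq (B : Finset κ) (b : Bool) : sg (B, b) = (-1) ^ B.card * if b then -1 else 1 := by
  unfold sg od
  rcases Nat.even_or_odd B.card with h | h <;> cases b <;>
    simp [h.neg_one_pow, Nat.odd_add_one, h, Nat.not_odd_iff_even.2, Nat.not_even_iff_odd.2]

lemma ws_xe {D : XD R T V C} (p q z : XE D) (x : κ → XE D) (h : r0 p.g q.g = 1) :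
    ws p q z x = ⟨0, ∑ t, sg t •
      (D.β (D.actV (gg z.g (fun i => (x i).g) t) (r0 p q).v) (r0 p q).v -
      D.β (r0 p q).v (D.actV (gg z.g (fun i => (x i).g) t) (r0 p q).v)), 1⟩ := by
  have h0 : (r0 p q).g = 1 := by rw [← h]; exact map_r0 (XE.top D) p q
  have hg : ∀ t, (gg z x t).g = gg z.g (fun i => (x i).g) t := fun t => map_gg (XE.top D) z x t
  have k1 : ∀ t, (gg z x t * r0 p q * (gg z x t)⁻¹).g = 1 := fun t => by simp [h0]
  obtain ⟨h1, h2⟩ := XE.list_prod ((univ : Finset (Finset κ × Bool)).toList.map (fs p q z x)) (by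
      intro y hy
      obtain ⟨t, _, rfl⟩ := List.mem_map.1 hy
      unfold fs
      split_ifs
      · rw [XE.inv_g, k1, inv_one]
      · exact k1 t)
  have h3 : (rs p q z x).v = ∑ t, sg t • D.actV (gg z.g (fun i => (x i).g) t) (r0 p q).v := by
    rw [rs, h2, List.map_map, ← Finset.sum_map_toList]
    congr 2
    funext t
    simp only [Function.comp_apply, fs, sg]
    split_ifs
    · rw [XE.inv_v, k1, inv_one, XE.actV_one, XE.conj_v _ _ h0, hg, neg_smul, one_smul]
    · rw [XE.conj_v _ _ h0, hg, one_smul]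
  rw [ws, cm, XE.comm_eq (rs p q z x) _ h1 h0, h3, map_sum, map_sum, LinearMap.sum_apply,
    ← sum_sub_distrib]
  simp only [map_zsmul, LinearMap.smul_apply, smul_sub]

end ext

/-- the signed sum of an odd function vanishes when the number of variables is odd -/
lemma sum_sg {A M : Type} [AddCommGroup A] [AddCommGroup M] (hκ : Odd (Fintype.card κ))
    (Fn : A → M) (hF : ∀ a, Fn (-a) = -Fn a) (z : Dih A) (x : κ → Dih A) :
    ∑ t, sg t • Fn (gg z x t).a = 0 := by
  have e1 : ∑ t, sg t • Fn (gg z x t).a =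
      ∑ B : Finset κ, ((-1 : ℤ) ^ B.card) • Fn (∑ i ∈ B, (x i ^ 6).a) -
      ∑ B : Finset κ, ((-1 : ℤ) ^ B.card) •
        Fn (∑ i ∈ B, (x i ^ 6).a + ∑ i, (cm z (x i ^ 3)).a) := by
    rw [Fintype.sum_prod_type, ← sum_sub_distrib]
    refine sum_congr rfl fun B _ => ?_
    simp [gg, (Dih.gA_spec x B).1, (Dih.gA_spec x B).2, (Dih.cAll_spec z x).2, sg_eq,
      sub_eq_add_neg, add_comm]
  rw [e1]
  by_cases hx : ∀ i, (x i).e = 0
  · have e2 : ∀ i, (x i ^ 6).a = (6 : ℤ) • (x i).a := fun i => by rw [Dih.six_a, if_pos (hx i)]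
    have e3 : ∀ i, (cm z (x i ^ 3)).a = (sgn z.e - 1) • (3 : ℤ) • (x i).a := fun i => by
      rw [Dih.cm_a _ _ (by rw [Dih.three_e, hx]), Dih.three_a _ (hx i)]
    simp only [e2, e3]
    rcases z2_cases z.e with hz | hz
    · simp [hz]
    · rw [sub_eq_zero]
      refine Fintype.sum_bijective (fun B : Finset κ => Bᶜ) compl_bijective _ _ fun B => ?_
      have a1 : ∑ i ∈ Bᶜ, (6 : ℤ) • (x i).a + ∑ i, (sgn z.e - 1) • (3 : ℤ) • (x i).a =
          -∑ i ∈ B, (6 : ℤ) • (x i).a := by
        rw [← Finset.sum_add_sum_compl B, hz, sgn_one, add_left_comm, ← sum_add_distrib,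
          ← sum_neg_distrib, sum_eq_zero (s := Bᶜ), add_zero]
        · exact sum_congr rfl fun i _ => by module
        · intro i _; module
      have a2 : (-1 : ℤ) ^ Bᶜ.card = -(-1) ^ B.card := by
        have a3 : (-1 : ℤ) ^ B.card * (-1) ^ Bᶜ.card = -1 := by
          rw [← pow_add, Finset.card_add_card_compl, hκ.neg_one_pow]
        have a4 : (-1 : ℤ) ^ B.card * (-1) ^ B.card = 1 := by
          rw [← mul_pow]; simp
        linear_combination (-1 : ℤ) ^ B.card * a3 - (-1 : ℤ) ^ Bᶜ.card * a4
      rw [a1, a2, hF, neg_smul, smul_neg, neg_neg]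
  · push Not at hx
    obtain ⟨i0, hi0⟩ := hx
    have key : ∀ b : A, ∑ B : Finset κ, ((-1 : ℤ) ^ B.card) •
        Fn (∑ i ∈ B, (x i ^ 6).a + b) = 0 := by
      intro b
      have h0 : (x i0 ^ 6).a = 0 := by rw [Dih.six_a, if_neg hi0]
      refine Finset.sum_involution (fun B _ => if i0 ∈ B then B.erase i0 else insert i0 B)
        (fun B _ => ?_) (fun B _ _ => ?_) (fun B _ => mem_univ _) (fun B _ => ?_)
      · split_ifs with h
        · rw [← Finset.add_sum_erase B _ h, h0, zero_add, ← Finset.card_erase_add_one h, pow_succ,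
            ← add_smul]
          simp
        · rw [Finset.sum_insert h, h0, zero_add, Finset.card_insert_of_notMem h, pow_succ,
            ← add_smul]
          simp
      · split_ifs with h
        · intro e; rw [← e] at h; simp at h
        · intro e; rw [← e] at h; simp at h
      · by_cases h : i0 ∈ B
        · simp [h, Finset.insert_erase h]
        · simp [h, Finset.erase_insert h]
    have k0 := key 0
    simp only [add_zero] at k0
    rw [k0, key, sub_zero]

end Pool.Agent.P.MP_a84a61_al.Z
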